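import Mathlib

set_option autoImplicit false

open Set Filter Topology Metric TopologicalSpace unitInterval

namespace Pool.Agent.H.MP_b0a983_gt

lemma cst {Z : Type} [TopologicalSpace Z] {s : Set Z} (hs : IsPreconnected s) {a b : Z → ℝ}
    (ha : Continuous a) (hb : Continuous b) (h : ∀ z ∈ s, (a z : UnitAddCircle) = b z) {x y : Z}
    (hx : x ∈ s) (hy : y ∈ s) : a x - b x = a y - b y :=
  (AddCircle.isCoveringMap_coe (1 : ℝ)).constOn_of_comp hs (ha.sub hb).continuousOn
    (fun z hz w hw => by simp [h z hz, h w hw]) hx hy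

lemma unic {Y : Type} [MetricSpace Y] [PreconnectedSpace Y]
    (h : ∀ g : Y → UnitAddCircle, Continuous g → ∃ G : Y → ℝ, Continuous G ∧ ∀ y, ↑(G y) = g y)
    {A B : Set Y} (a1 : IsClosed A) (b1 : IsClosed B) (a2 : IsConnected A) (b2 : IsConnected B)
    (e : A ∪ B = univ) : IsConnected (A ∩ B) := by
  classical
  refine ⟨by simpa using (isPreconnected_closed_iff.1 isPreconnected_univ A B a1 b1 e.ge
    (by simpa using a2.1) (by simpa using b2.1)), (isPreconnected_iff_subset_of_fully_disjoint_closed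
      (a1.inter b1)).2 fun P Q hP hQ h1 h2 => ?_⟩
  by_contra! hc
  obtain ⟨⟨y, y1, y2⟩, x, x1, x2⟩ := hc.imp not_subset.1 not_subset.1
  obtain ⟨u, u0, u1, -⟩ := exists_continuous_zero_one_of_isClosed hP hQ h2
  let g : Y → UnitAddCircle := fun y => if y ∈ A then ↑(u y / 2) else ↑(-(u y / 2))
  have gA : ∀ y ∈ A, g y = ↑(u y / 2) := fun y hy => if_pos hy
  have gB : ∀ y ∈ B, g y = ↑(-(u y / 2)) := fun y hy => by
    by_cases k : y ∈ A
    · rw [gA y k]
      rcases h1 ⟨k, hy⟩ with k | k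
      · simp [u0 k]
      · rw [u1 k, ← AddCircle.coe_add_period (1 : ℝ) (-_)]
        norm_num
    · exact if_neg k
  obtain ⟨G, G1, G2⟩ := h g (continuousOn_univ.1 (e ▸ ContinuousOn.union_of_isClosed
    (ContinuousOn.congr (by fun_prop) gA) (ContinuousOn.congr (by fun_prop) gB) a1 b1))
  have k1 := cst a2.2 G1 (by fun_prop) (fun z hz => (G2 z).trans (gA z hz)) x1.1 y1.1
  have k2 := cst b2.2 G1 (by fun_prop) (fun z hz => (G2 z).trans (gB z hz)) x1.2 y1.2
  have k3 : u x = 0 := u0 ((h1 x1).resolve_right x2)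
  have k4 : u y = 1 := u1 ((h1 y1).resolve_left y2)
  linarith

lemma lift (g : I × I → UnitAddCircle) (hg : Continuous g) :
    ∃ G : I × I → ℝ, Continuous G ∧ ∀ y, ↑(G y) = g y := by
  let p : ℝ × ℝ → I × I := fun z => (projIcc 0 1 zero_le_one z.1, projIcc 0 1 zero_le_one z.2)
  obtain ⟨r, hr⟩ := QuotientAddGroup.mk_surjective (g (p 0))
  obtain ⟨G, ⟨-, hG⟩, -⟩ := (AddCircle.isCoveringMap_coe (1 : ℝ)).existsUnique_continuousMap_lifts
    ⟨g ∘ p, hg.comp (by fun_prop)⟩ 0 r hr
  exact ⟨fun y => G (y.1, y.2), by fun_prop, fun y => (congrFun hG _).trans (by simp [p])⟩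

lemma cross {α β : Type} [TopologicalSpace α] [TopologicalSpace β] [PreconnectedSpace α]
    [PreconnectedSpace β] [Nontrivial α] [Nontrivial β] (p : α × β) : IsPreconnected {p}ᶜ := by
  obtain ⟨a, ha⟩ := exists_ne p.1
  obtain ⟨b, hb⟩ := exists_ne p.2
  have k : ∀ s ≠ p.1, ∀ t ≠ p.2, ({s} ×ˢ univ ∪ univ ×ˢ {t} : Set (α × β)) ⊆ {p}ᶜ := by
    rintro s hs t ht z (h | h) rfl
    exacts [hs h.1.symm, ht h.2.symm]
  have c : ∀ s t, IsPreconnected ({s} ×ˢ univ ∪ univ ×ˢ {t} : Set (α × β)) := fun s t =>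
    (isPreconnected_singleton.prod isPreconnected_univ).union (s, t) (by simp) (by simp)
      (isPreconnected_univ.prod isPreconnected_singleton)
  refine isPreconnected_of_forall (a, b) fun z hz => ?_
  by_cases h : z.1 = p.1
  · exact ⟨_, k a ha z.2 fun h' => hz (Prod.ext h h'), by simp, by simp, c _ _⟩
  · exact ⟨_, k z.1 h b hb, by simp, by simp, c _ _⟩

lemma fr {Y : Type} [TopologicalSpace Y] [LocallyConnectedSpace Y] {O : Set Y} (hO : IsOpen O)
    {a z : Y} (h1 : z ∈ closure (connectedComponentIn O a)) (h2 : z ∈ O) :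
    z ∈ connectedComponentIn O a := by
  obtain ⟨w, w1, w2⟩ := mem_closure_iff.1 h1 _ hO.connectedComponentIn (mem_connectedComponentIn h2)
  rw [connectedComponentIn_eq w2, ← connectedComponentIn_eq w1]
  exact mem_connectedComponentIn h2

lemma low {X : Type} [MetricSpace X] {e : I × I → X} (he : Continuous e) (q r : I × I)
    (h1 : e r ≠ e q) (h2 : ∀ z, IsPreconnected (e ⁻¹' {z})ᶜ) : ¬ ∀ U ∈ 𝓝 (e q), ∃ V, IsOpen V ∧
      e q ∈ V ∧ V ⊆ U ∧ HasSmallInductiveDimensionLT (frontier V) 1 := fun h => by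
  have := (convex_Icc (0 : ℝ) 1).locallyPathConnectedSpace
  obtain ⟨U, u1, u2, u3⟩ := exists_mem_nhds_isClosed_subset (compl_singleton_mem_nhds h1.symm)
  obtain ⟨V, v1, v2, v3, v4⟩ := h U u1
  have v5 : e r ∉ closure V := fun h => u3 (closure_minimal v3 u2 h) rfl
  have := totallySeparatedSpace_of_t0_of_basis_clopen (hasSmallInductiveDimensionLT_one_iff.1 v4)
  let C := connectedComponentIn (e ⁻¹' V) q
  have c1 : IsOpen C := (v1.preimage he).connectedComponentIn
  have c2 : q ∈ C := mem_connectedComponentIn v2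
  have c3 : closure C ⊆ e ⁻¹' closure V := closure_minimal
    (fun z hz => subset_closure (connectedComponentIn_subset (e ⁻¹' V) _ hz)) (isClosed_closure.preimage he)
  have c4 : IsOpen (closure C)ᶜ := isClosed_closure.isOpen_compl
  have c5 : r ∈ (closure C)ᶜ := fun h => v5 (c3 h)
  let D := connectedComponentIn (closure C)ᶜ r
  have d1 : IsOpen D := c4.connectedComponentIn
  have d2 : D ⊆ (closure C)ᶜ := connectedComponentIn_subset _ _
  have d3 : closure D ⊆ Cᶜ :=
    closure_minimal (fun z hz h => d2 hz (subset_closure h)) c1.isClosed_compl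
  have d4 : closure C ⊆ Dᶜ := fun z hz h => d2 h hz
  have d5 : IsPreconnected (closure C) := isPreconnected_connectedComponentIn.closure
  have k := unic lift isClosed_closure d1.isClosed_compl
    (isConnected_connectedComponentIn_iff.2 c5).closure ⟨⟨q, d4 (subset_closure c2)⟩,
      isPreconnected_of_forall q fun b hb => by
        by_cases h : b ∈ closure C
        · exact ⟨_, d4, subset_closure c2, h, d5⟩
        obtain ⟨w, w1, w2⟩ : (closure (connectedComponentIn (closure C)ᶜ b) ∩ closure C).Nonempty := by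
          by_contra h'
          exact connectedComponentIn_subset _ _ ((IsClopen.eq_univ ⟨closure_subset_iff_isClosed.1
            fun z hz => fr c4 hz fun h => h' ⟨z, hz, h⟩, c4.connectedComponentIn⟩
            ⟨b, mem_connectedComponentIn h⟩).ge (mem_univ q)) (subset_closure c2)
        refine ⟨_, union_subset (closure_minimal (fun z hz h' => hb ?_) d1.isClosed_compl) d4,
          .inr (subset_closure c2), .inl (subset_closure (mem_connectedComponentIn h)),
          isPreconnected_connectedComponentIn.closure.union w w1 w2 d5⟩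
        rw [show D = _ from connectedComponentIn_eq h', ← connectedComponentIn_eq hz]
        exact mem_connectedComponentIn h⟩ (eq_univ_of_forall fun z => (em _).imp_left
          fun h => subset_closure h)
  have k1 : e '' (closure D ∩ Dᶜ) ⊆ frontier V := by
    rintro _ ⟨z, hz, rfl⟩
    have : z ∈ closure C := by_contra fun h => hz.2 (fr c4 hz.1 h)
    exact v1.frontier_eq ▸ ⟨c3 this, fun h => d3 hz.1 (fr (v1.preimage he) this h)⟩
  have k2 := totallyDisconnectedSpace_subtype_iff.1 inferInstance _ k1 (k.2.image _ he.continuousOn)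
  obtain ⟨z, hz⟩ := k.1
  have k3 := v1.frontier_eq ▸ k1 ⟨z, hz, rfl⟩
  obtain ⟨w, -, w1, w2⟩ := h2 (e z) D (closure D)ᶜ d1 isClosed_closure.isOpen_compl
    (fun w hw => (em _).imp_right fun h h' => hw (k2 ⟨w, ⟨h', h⟩, rfl⟩ ⟨z, hz, rfl⟩))
    ⟨r, fun h => v5 (mem_of_eq_of_mem h k3.1), mem_connectedComponentIn c5⟩
    ⟨q, fun h => k3.2 (mem_of_eq_of_mem h.symm v2), fun h => d3 h c2⟩
  exact w2 (subset_closure w1)

lemma fro {Y : Type} [TopologicalSpace Y] {e : Y → ℝ × ℝ} (he : Continuous e) (p : ℝ × ℝ) {r : ℝ}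
    {y : Y} (h : y ∈ frontier (e ⁻¹' ball p r)) :
    |(e y).1 - p.1| = r ∨ |(e y).2 - p.2| = r := by
  have : max (dist (e y).1 p.1) (dist (e y).2 p.2) = r :=
    frontier_ball_subset_sphere (he.frontier_preimage_subset _ h)
  exact (max_eq_iff.1 this).imp (·.1) (·.1)

lemma one {Y : Type} [TopologicalSpace Y] {e : Y → ℝ × ℝ} (he : IsEmbedding e) {A B : Set ℝ}
    (hA : A.Finite) (hB : B.Finite) (h : ∀ y, (e y).1 ∈ A ∨ (e y).2 ∈ B) :
    HasSmallInductiveDimensionLT Y 2 := by
  refine .succ 1 {V | IsOpen V ∧ (frontier V).Finite} (isTopologicalBasis_of_isOpen_of_nhds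
    (fun _ h => h.1) fun x U hx hU => ?_) fun V hV => ?_
  · obtain ⟨W, w1, rfl⟩ := he.isInducing.isOpen_iff.1 hU
    obtain ⟨ε, h0, h1⟩ := Metric.isOpen_iff.1 w1 _ hx
    obtain ⟨r, r1, r2⟩ := (Ioo_infinite h0).exists_notMem_finite
      ((hA.image fun a => |a - (e x).1|).union (hB.image fun a => |a - (e x).2|))
    have f : ∀ c : ℝ, {a | |a - c| = r}.Finite := fun c =>
      (toFinite {c + r, c - r}).subset fun a ha => ((abs_eq r1.1.le).1 ha).imp
        (fun h => by simp [← h]) fun h => by simp [sub_eq_add_neg c, ← h]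
    refine ⟨e ⁻¹' ball (e x) r, ⟨isOpen_ball.preimage he.continuous, .of_finite_image
      (((hA.prod (f (e x).2)).union ((f (e x).1).prod hB)).subset ?_) he.injective.injOn⟩,
      mem_ball_self r1.1, preimage_mono ((ball_subset_ball r1.2.le).trans h1)⟩
    rintro _ ⟨y, hy, rfl⟩
    have := fro he.continuous _ hy
    exact (h y).imp (fun h => ⟨h, this.resolve_left fun k => r2 (.inl ⟨_, h, k⟩)⟩)
      fun h => ⟨this.resolve_right fun k => r2 (.inr ⟨_, h, k⟩), h⟩
  · have := hV.2.to_subtype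
    have := he.t2Space
    exact hasSmallInductiveDimensionLT_one_iff.2 (isTopologicalBasis_of_isOpen_of_nhds
      (fun _ h => h.2) fun x U hx _ => ⟨U, isClopen_discrete U, hx, Subset.rfl⟩)

lemma up {S : Set (ℝ × ℝ)} (x : S) : ∀ U ∈ 𝓝 x, ∃ V, IsOpen V ∧ x ∈ V ∧ V ⊆ U ∧
    HasSmallInductiveDimensionLT (frontier V) 2 := fun U hU => by
  obtain ⟨r, h0, h1⟩ := Metric.mem_nhds_iff.1 hU
  refine ⟨Subtype.val ⁻¹' ball x.1 r, isOpen_ball, mem_ball_self h0, h1, one
    (IsEmbedding.subtypeVal.comp IsEmbedding.subtypeVal) (toFinite {x.1.1 + r, x.1.1 - r})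
    (toFinite {x.1.2 + r, x.1.2 - r}) fun y => ?_⟩
  refine (fro continuous_subtype_val _ y.2).imp (fun h => ?_) fun h => ?_ <;>
  exact ((abs_eq h0.le).1 h).imp (fun h => by simp [← h]) fun h => by simp [sub_eq_add_neg _ r, ← h]

end Pool.Agent.H.MP_b0a983_gt
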