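import Mathlib
import Pool.Agent.H.MP_b0a983_gt.A

set_option autoImplicit false

open Set Filter Topology Metric TopologicalSpace unitInterval Real

namespace Pool.Agent.H.MP_b0a983_gt

def S : Set (ℝ × ℝ) := {p | p ∈ Icc (-1, -1) (1, 2) ∧
  (p.1 ≤ 0 ∨ sin (log p.1) ≤ p.2 ∧ p.2 ≤ sin (log p.1) + |sin (π / p.1)|)}

lemma cS : IsCompact S := isCompact_Icc.inter_right (t := {p | _}) (isOpen_compl_iff.1 (by
  have h : ContinuousOn (fun p : ℝ × ℝ => (p.2 - sin (log p.1),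
      sin (log p.1) + |sin (π / p.1)| - p.2)) {p | 0 < p.1} := fun p hp => by
    have : p.1 ≠ 0 := ne_of_gt hp
    exact ContinuousAt.continuousWithinAt (by fun_prop (disch := assumption))
  convert h.isOpen_inter_preimage (isOpen_lt continuous_const continuous_fst)
    ((isOpen_lt continuous_fst (continuous_const (y := 0))).union
      (isOpen_lt continuous_snd (continuous_const (y := 0))))
  ext p
  simp [not_or, or_iff_not_imp_left (a := p.2 < _)]))

lemma mem {t s : ℝ} (h0 : 0 < t) (h1 : t ≤ 1) (hs : s ∈ I) :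
    (t, sin (log t) + s * |sin (π / t)|) ∈ S := by
  have a := mul_nonneg hs.1 (abs_nonneg (sin (π / t)))
  have b := mul_le_of_le_one_left (abs_nonneg (sin (π / t))) hs.2
  exact ⟨⟨⟨by linarith, by linarith [neg_one_le_sin (log t)]⟩, h1,
    by linarith [sin_le_one (log t), abs_sin_le_one (π / t)]⟩, .inr ⟨by linarith, by linarith⟩⟩

lemma rep {p : ℝ × ℝ} (h : p ∈ S) (h0 : 0 < p.1) :
    ∃ s ∈ I, p.2 = sin (log p.1) + s * |sin (π / p.1)| := by
  obtain ⟨a, b⟩ := h.2.resolve_left h0.not_ge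
  obtain ⟨s, s1, s2⟩ := intermediate_value_Icc zero_le_one (f := fun s : ℝ => sin (log p.1) +
    s * |sin (π / p.1)|) (by fun_prop) (show p.2 ∈ _ from ⟨by simpa using a, by simpa using b⟩)
  exact ⟨s, s1, s2.symm⟩

lemma lim (θ : ℝ) : (0, sin θ) ∈ closure (range fun n : ℕ =>
    (((n : ℝ) + 1)⁻¹, sin (log ((n : ℝ) + 1)⁻¹))) := by
  let x : ℕ → ℝ := fun k => exp (k * (2 * π) - θ)
  have h1 : Tendsto x atTop atTop := tendsto_exp_atTop.comp (tendsto_atTop_add_const_right _ _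
    (tendsto_natCast_atTop_atTop.atTop_mul_const two_pi_pos))
  have h2 : Tendsto (fun k => ((⌊x k⌋₊ : ℝ) + 1) / x k) atTop (𝓝 1) := by
    simpa [add_div] using (tendsto_nat_floor_div_atTop.comp h1).add h1.inv_tendsto_atTop
  refine mem_closure_of_tendsto (f := fun k => (((⌊x k⌋₊ : ℝ) + 1)⁻¹, sin (log ((⌊x k⌋₊ : ℝ) + 1)⁻¹)))
    (b := atTop) (Tendsto.prodMk_nhds (tendsto_atTop_add_const_right _ _
      (tendsto_natCast_atTop_atTop.comp (tendsto_nat_floor_atTop.comp h1))).inv_tendsto_atTop ?_)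
    (Eventually.of_forall fun k => ⟨_, rfl⟩)
  have h3 := (continuous_sin.tendsto _).comp ((h2.log one_ne_zero).const_sub θ)
  rw [log_one, sub_zero] at h3
  refine h3.congr fun k => ?_
  rw [Function.comp, log_div (by positivity) (exp_pos _).ne', log_exp, log_inv,
    ← sin_add_nat_mul_two_pi (-_) k]
  congr 1
  ring

lemma conn : IsConnected S := by
  let C := (fun z : ℝ × ℝ => (z.1, sin (log z.1) + z.2 * |sin (π / z.1)|)) '' (Ioc 0 1 ×ˢ I)
  have h1 : IsConnected C := ((isConnected_Ioc one_pos).prod (isConnected_Icc zero_le_one)).image _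
    fun p hp => by
      have : p.1 ≠ 0 := ne_of_gt hp.1.1
      exact ContinuousAt.continuousWithinAt (by fun_prop (disch := assumption))
  have h2 : (0, sin 0) ∈ closure C := closure_mono (by
    rintro _ ⟨n, rfl⟩
    exact ⟨(((n : ℝ) + 1)⁻¹, 0), ⟨⟨by positivity, inv_le_one_of_one_le₀ (by simp)⟩, by simp⟩,
      by simp⟩) (lim 0)
  convert (h1.subset_closure (subset_insert _ _) (insert_subset h2 subset_closure)).union
    ⟨_, .inl rfl, by simp⟩ (((convex_Icc (-1 : ℝ) 0).prod (convex_Icc (-1 : ℝ) 2)).isConnected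
      ⟨(0, 0), by simp⟩)
  refine Subset.antisymm (fun p hp => (lt_or_ge 0 p.1).imp (fun h => ?_)
    fun h => ⟨⟨hp.1.1.1, h⟩, hp.1.1.2, hp.1.2.2⟩) ?_
  · obtain ⟨s, s1, s2⟩ := rep hp h
    exact .inr ⟨(p.1, s), ⟨⟨h, hp.1.2.1⟩, s1⟩, Prod.ext rfl s2.symm⟩
  · rintro p ((rfl | ⟨z, hz, rfl⟩) | h)
    · simp [S]
    · exact mem hz.1.1 hz.1.2 hz.2
    · exact ⟨⟨⟨h.1.1, h.2.1⟩, h.1.2.trans zero_le_one, h.2.2⟩, .inl h.1.2⟩

lemma two (x : S) : ¬ ∀ U ∈ 𝓝 x, ∃ V, IsOpen V ∧ x ∈ V ∧ V ⊆ U ∧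
    HasSmallInductiveDimensionLT (frontier V) 1 := by
  have key : ∀ e : I × I → S, Continuous e → (∀ a b, (e a).1.1 = (e b).1.1 → a.1 = b.1) →
      (∀ a b, e a = e b → a = b ∨ a.1 = 0 ∨ a.1 = 1) →
      (∀ a b, a.1 = b.1 → a.1 = 0 ∨ a.1 = 1 → e a = e b) ∨ e.Injective → x ∈ range e →
      ¬ ∀ U ∈ 𝓝 x, ∃ V, IsOpen V ∧ x ∈ V ∧ V ⊆ U ∧
        HasSmallInductiveDimensionLT (frontier V) 1 := by
    rintro e h1 h2 h3 h4 ⟨q, rfl⟩
    obtain ⟨a, ha⟩ := exists_ne q.1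
    refine low h1 q (a, 0) (fun h => ha (h2 _ _ (congrArg (·.1.1) h))) fun z => ?_
    rcases (e ⁻¹' {z}).eq_empty_or_nonempty with h | ⟨p, rfl⟩
    · simpa [h] using isPreconnected_univ
    by_cases h5 : ∀ b, e b = e p → b = p
    · exact (Subset.antisymm h5 (singleton_subset_iff.2 rfl) : e ⁻¹' {e p} = {p}) ▸ cross p
    push Not at h5
    obtain ⟨b, b1, b2⟩ := h5
    have h6 := (h3 _ _ b1.symm).resolve_left b2.symm
    have : (e ⁻¹' {e p})ᶜ = {p.1}ᶜ ×ˢ univ := by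
      ext c
      simpa using not_congr ⟨fun h => h2 _ _ (congrArg (·.1.1) h), fun h =>
        (h4.resolve_right fun h => b2 (h b1)) c p h (h ▸ h6)⟩
    refine this ▸ IsPreconnected.prod (OrdConnected.isPreconnected ⟨fun c hc d hd w hw h => ?_⟩)
      isPreconnected_univ
    rcases h6 with k | k
    · exact hc (le_antisymm (h ▸ hw.1) (k ▸ nonneg'))
    · exact hd (le_antisymm (k ▸ le_one') (h ▸ hw.2))
  rcases lt_or_ge 0 x.1.1 with h | h
  · obtain ⟨s, s1, s2⟩ := rep x.2 h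
    let n := ⌊x.1.1⁻¹⌋₊
    have n1 : (1 : ℝ) ≤ n := by exact_mod_cast Nat.le_floor (by simpa using one_le_inv₀ h |>.2 x.2.1.2.1)
    have n2 : ∀ u : I, (1 : ℝ) ≤ n + u := fun u => by linarith [u.2.1]
    have n3 : ∀ u : I, (n + u : ℝ) ≠ 0 := fun u => by linarith [n2 u]
    have i : ∀ a b : I, (n + a : ℝ)⁻¹ = (n + b : ℝ)⁻¹ → a = b := fun a b h =>
      Subtype.ext (by simpa using h)
    refine key (fun z => ⟨_, mem (t := (n + z.1)⁻¹) (by positivity [n2 z.1])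
      (inv_le_one_of_one_le₀ (n2 _)) z.2.2⟩) (Continuous.subtype_mk (by
        fun_prop (disch := simp [n3])) _) (fun a b => i _ _) ?_ (.inl ?_)
      ⟨(⟨x.1.1⁻¹ - n, sub_nonneg.2 (Nat.floor_le (by positivity)),
        by linarith [Nat.lt_floor_add_one x.1.1⁻¹]⟩, ⟨s, s1⟩),
        Subtype.ext (Prod.ext (by simp) (by simp [s2]))⟩
    · rintro ⟨a, s⟩ ⟨b, t⟩ k
      obtain rfl := i a b (congrArg (·.1.1) k)
      have k1 := add_left_cancel (congrArg (·.1.2) k :)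
      by_contra! k2
      refine k2.1 (Prod.ext rfl (Subtype.ext (mul_right_cancel₀ (abs_ne_zero.2 ?_) k1)))
      rw [div_inv_eq_mul, mul_add, add_comm, mul_comm π n, sin_add_nat_mul_pi]
      exact mul_ne_zero (by simp) (sin_pos_of_pos_of_lt_pi (mul_pos pi_pos
        (a.2.1.lt_of_ne' fun h => k2.2.1 (Subtype.ext h))) (mul_lt_of_lt_one_right pi_pos
          (a.2.2.lt_of_ne fun h => k2.2.2 (Subtype.ext h)))).ne'
    · rintro ⟨a, s⟩ ⟨_, t⟩ rfl (rfl | rfl) <;>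
        simp [mul_add, mul_comm π n, sin_add_pi]
  · have k : Function.Injective fun z : I × I => (-(z.1 : ℝ), 3 * (z.2 : ℝ) - 1) := fun a b k =>
      Prod.ext (Subtype.ext (by simpa using congrArg (·.1) k))
        (Subtype.ext (by simpa using congrArg (·.2) k))
    refine key (fun z => ⟨(-z.1, 3 * z.2 - 1), ⟨⟨by simp [le_one], by simp [nonneg]⟩,
      by linarith [z.1.2.1], by linarith [z.2.2.2]⟩, .inl (by simp [nonneg])⟩) (by fun_prop)
      (fun a b h => Subtype.ext (by simpa using h)) (fun a b h => .inl (k (congrArg (·.1) h)))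
      (.inr fun a b h => k (congrArg (·.1) h))
      ⟨(⟨-x.1.1, by linarith, by linarith [x.2.1.1.1]⟩, ⟨(x.1.2 + 1) / 3,
        by linarith [x.2.1.1.2], by linarith [x.2.1.2.2]⟩), Subtype.ext (Prod.ext (by simp)
          (by simp only; ring))⟩

lemma sec {K : Set S} (h1 : IsClosed K) (h2 : ∀ t ∈ Icc (0 : ℝ) 1, ∃ x ∈ K, x.1.1 = t) :
    ¬ IsTotallyDisconnected K := fun h => by
  have h3 : ∀ θ, (0, sin θ) ∈ Subtype.val '' K := fun θ => closure_minimal (by
    rintro _ ⟨n, rfl⟩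
    obtain ⟨x, x1, x2⟩ := h2 ((n : ℝ) + 1)⁻¹ ⟨by positivity, inv_le_one_of_one_le₀ (by simp)⟩
    obtain ⟨s, -, s2⟩ := rep x.2 (by rw [x2]; positivity)
    exact ⟨x, x1, Prod.ext x2 (by simpa [x2, mul_add, mul_comm π n, sin_add_pi] using s2)⟩)
    (cS.isClosed.isClosedMap_subtype_val _ h1) (lim θ)
  have := IsEmbedding.subtypeVal.isTotallyDisconnected_image.2 h _ (range_subset_iff.2 h3)
    (isPreconnected_range (by fun_prop)) ⟨0, rfl⟩ ⟨π / 2, rfl⟩
  simp at this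

end Pool.Agent.H.MP_b0a983_gt
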